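import Pool.Agent.V11128.CXL.G

/-!
# The local landscape of ζ under the moment measures: a multiplicative complex normal field

Let `δ(T) → 0` and `δ(T) log T → ∞`. Choose `t ∈ [0, T]` with density proportional to
`|ζ(1/2 + δ + it)|^β`, `0 < β ≤ 4`. Then for all real `a_1, ..., a_n` the vector of the COMPLEX ratios
`ζ(1/2 + δ + i(t + a_j δ)) / ζ(1/2 + δ + it)` converges in law to `(exp z_1, ..., exp z_n)`, where
`z` is the circular complex normal vector with means `-(β/2) ℓ(a_j)` and covariances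
`ℓ(a_j) + ℓ(-a_i) - ℓ(a_j - a_i)`, `ℓ(x) = log (1 + ix/2)`. For all `β` in a countable set the same holds
off a set of measure `o(T δ^(4 + 4c))` on which `|ζ| > δ^(-2-c)`, for `β ≤ 4` and `β ≥ 4 + 4c`.

The unnormalized averages are treated as well, with the predicted constant `a(β/2)`.

The proof starts from the mixed moments with real exponents of the starting library
(`Pool.Agent.Y753.SHR.main_R`, `mixed_small`). With a determination of the logarithm they only give the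
transforms of the increments at the exponents `(θ, u)`, `θ_j > |u_j|`, `∑ θ_j + |∑ u_j| < β`, rational; the
integer modes of the arguments, which determine the law of the ratios, are outside this cone. They are
recovered from the small rational modes (`Pool.Agent.V11128.CXL.modes`), and the law follows by
Curtiss' theorem for the moduli, the cosines and the sines, in an open box (`curtbox`).
-/

set_option autoImplicit false

namespace Pool.Agent.Results.MP_f9aece_nt.ComplexLandscape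

open Filter MeasureTheory Topology ProbabilityTheory

/-- The coefficient `s (s + 1) ⋯ (s + m - 1) / m!` of `x^m` in `(1 - x)^(-s)`. -/
noncomputable def ds (s : ℝ) (m : ℕ) : ℝ := ∏ i ∈ Finset.range m, (s + i) / ((i : ℝ) + 1)

/-- The arithmetic factor `a(s) = ∏_p (1 - 1/p)^(s²) ∑_m ds(m)² p^(-m)`. -/
noncomputable def ak (s : ℝ) : ℝ :=
  ∏' p : Nat.Primes, ((1 - 1 / (p : ℝ)) ^ (s ^ 2) * ∑' m : ℕ, ds s m ^ 2 * (1 / (p : ℝ)) ^ m)

/-- `ζ(1/2 + δ + i(t + xδ))`. -/
noncomputable def Z (δ x t : ℝ) : ℂ :=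
  riemannZeta (1 / 2 + δ + ((t + x * δ : ℝ) : ℂ) * Complex.I)

/-- The ratios `ζ(1/2 + δ + i(t + a_j δ)) / ζ(1/2 + δ + it)`. -/
noncomputable def ratio {n : ℕ} (δ : ℝ) (a : Fin n → ℝ) (t : ℝ) : Fin n → ℂ :=
  fun j => Z δ (a j) t / Z δ 0 t

/-- `ℓ(x) = log (1 + ix/2)`, principal determination. -/
noncomputable def ell (x : ℝ) : ℂ := Complex.log (1 + Complex.I * (x : ℂ) / 2)

/-- The means of the limit law. -/
noncomputable def mean {n : ℕ} (β : ℝ) (a : Fin n → ℝ) (j : Fin n) : ℂ := -(β / 2 : ℂ) * ell (a j)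

/-- The covariances `E (z_j - m_j) conj (z_i - m_i)` of the limit law. -/
noncomputable def cov {n : ℕ} (a : Fin n → ℝ) (j i : Fin n) : ℂ :=
  ell (a j) + ell (-a i) - ell (a j - a i)

/-- `ρ` is the circular complex normal law on `ℂ^n` with mean `m` and covariance matrix `K`: for each
`c ∈ ℂ^n`, the real part of `∑ c_j z_j` has the normal law with mean `Re ∑ c_j m_j` and variance
`(1/2) Re ∑ c_j conj(c_i) K_ji ≥ 0`. -/
def IsCNormal {n : ℕ} (m : Fin n → ℂ) (K : Fin n → Fin n → ℂ) (ρ : ProbabilityMeasure (Fin n → ℂ)) :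
    Prop :=
  ∀ c : Fin n → ℂ, 0 ≤ (∑ j, ∑ i, c j * (starRingEnd ℂ) (c i) * K j i).re / 2 ∧
    (ρ : Measure (Fin n → ℂ)).map (fun z => (∑ j, c j * z j).re) =
      gaussianReal (∑ j, c j * m j).re ((∑ j, ∑ i, c j * (starRingEnd ℂ) (c i) * K j i).re / 2).toNNReal

/-- Let `δ(T) → 0` and `δ(T) log T → ∞`. First part: for `0 < β ≤ 4` and all shifts `a_1, ..., a_n`, with
the circular complex normal law `ρ` of mean `-(β/2) ℓ(a_j)` and covariance
`ℓ(a_j) + ℓ(-a_i) - ℓ(a_j - a_i)`, for all bounded continuous `F` on `ℂ^n`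

`(2δ)^(β²/4) (1/T) ∫_0^T |ζ(1/2 + δ + it)|^β F(R(t)) dt → a(β/2) ∫ F(exp z_1, ..., exp z_n) dρ(z)`,

`R(t)` being the vector of the ratios `ζ(1/2 + δ + i(t + a_j δ)) / ζ(1/2 + δ + it)`; the quotient of this
integral and of the integral of `|ζ(1/2 + δ + it)|^β` tends to `∫ F(exp z_1, ..., exp z_n) dρ(z)`. Second
part: let `c ≥ 0`, `S` a countable set of shifts, `B` a countable set of positive reals; off sets
`E(T) ⊆ [0, T]` of measure `o(T δ^(4+4c))`, on which `|ζ(1/2 + δ + it)| > δ^(-2-c)`, the same holds for all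
`β ∈ B` with `β ≤ 4` or `β ≥ 4 + 4c` and all shifts in `S`. -/
theorem result (δ : ℝ → ℝ) (hδ : Tendsto δ atTop (𝓝 0))
    (hδL : Tendsto (fun T : ℝ => δ T * Real.log T) atTop atTop) :
    (∀ β : ℝ, 0 < β → 0 < ak (β / 2)) ∧
    (∀ β : ℝ, 0 < β → β ≤ 4 → ∀ (n : ℕ) (a : Fin n → ℝ),
      ∃ ρ : ProbabilityMeasure (Fin n → ℂ), IsCNormal (mean β a) (cov a) ρ ∧
        ∀ F : BoundedContinuousFunction (Fin n → ℂ) ℝ,
          Tendsto (fun T : ℝ => (2 * δ T) ^ ((β / 2) ^ 2) / T *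
            ∫ t in Set.Icc 0 T, ‖Z (δ T) 0 t‖ ^ β * F (ratio (δ T) a t)) atTop
            (𝓝 (ak (β / 2) * ∫ z, F (fun j => Complex.exp (z j)) ∂(ρ : Measure (Fin n → ℂ)))) ∧
          Tendsto (fun T : ℝ => (∫ t in Set.Icc 0 T, ‖Z (δ T) 0 t‖ ^ β * F (ratio (δ T) a t)) /
            ∫ t in Set.Icc 0 T, ‖Z (δ T) 0 t‖ ^ β) atTop
            (𝓝 (∫ z, F (fun j => Complex.exp (z j)) ∂(ρ : Measure (Fin n → ℂ))))) ∧
    ∀ (c : ℝ), 0 ≤ c → ∀ (S B : Set ℝ), S.Countable → B.Countable → (∀ β ∈ B, 0 < β) →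
      ∃ E : ℝ → Set ℝ,
        (∀ T, MeasurableSet (E T) ∧ E T ⊆ Set.Icc 0 T ∧ ∀ t ∈ E T, (δ T) ^ (-(2 + c)) < ‖Z (δ T) 0 t‖) ∧
        Tendsto (fun T => (volume (E T)).toReal / (T * (δ T) ^ (4 + 4 * c))) atTop (𝓝 0) ∧
        ∀ β ∈ B, (β ≤ 4 ∨ 4 + 4 * c ≤ β) → ∀ (n : ℕ) (a : Fin n → ℝ), (∀ j, a j ∈ S) →
          ∃ ρ : ProbabilityMeasure (Fin n → ℂ), IsCNormal (mean β a) (cov a) ρ ∧
            ∀ F : BoundedContinuousFunction (Fin n → ℂ) ℝ,
              Tendsto (fun T : ℝ => (2 * δ T) ^ ((β / 2) ^ 2) / T *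
                ∫ t in Set.Icc 0 T \ E T, ‖Z (δ T) 0 t‖ ^ β * F (ratio (δ T) a t)) atTop
                (𝓝 (ak (β / 2) * ∫ z, F (fun j => Complex.exp (z j)) ∂(ρ : Measure (Fin n → ℂ)))) ∧
              Tendsto (fun T : ℝ => (∫ t in Set.Icc 0 T \ E T, ‖Z (δ T) 0 t‖ ^ β * F (ratio (δ T) a t)) /
                ∫ t in Set.Icc 0 T \ E T, ‖Z (δ T) 0 t‖ ^ β) atTop
                (𝓝 (∫ z, F (fun j => Complex.exp (z j)) ∂(ρ : Measure (Fin n → ℂ)))) := by
  have hpos : ∀ β : ℝ, 0 < β → 0 < ak (β / 2) := fun β hβ =>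
    Pool.Agent.H306R2.aF_pos (by positivity)
  have hδ0 : ∀ᶠ T in atTop, 0 < δ T := by
    filter_upwards [hδL.eventually (eventually_gt_atTop 0), eventually_gt_atTop (1 : ℝ)] with T h1 h2
    exact (pos_iff_pos_of_mul_pos h1).2 (Real.log_pos h2)
  -- from the real law to the complex law, and quotients
  have hquot : ∀ (β : ℝ), 0 < β → ∀ (n : ℕ) (a : Fin n → ℝ) (A : ℝ → Set ℝ)
      (ρ : ProbabilityMeasure (Fin (n + n) → ℝ)),
      Pool.Agent.Y753.SHL.Nor (Pool.Agent.V11128.CXL.mC β a) (Pool.Agent.V11128.CXL.CC a) ρ →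
      (∀ F : BoundedContinuousFunction (Fin n → ℂ) ℝ,
          Tendsto (fun T : ℝ => (2 * δ T) ^ ((β / 2) ^ 2) / T *
            ∫ t in A T, Pool.Agent.Y753.SHR.za (δ T) 0 t ^ β * F (Pool.Agent.V11128.CXL.Rt (δ T) a t)) atTop
            (𝓝 (Pool.Agent.H306R2.aF (β / 2) * ∫ v, F (Pool.Agent.V11128.CXL.Rm v)
              ∂(ρ : Measure (Fin (n + n) → ℝ))))) →
      ∃ ρ' : ProbabilityMeasure (Fin n → ℂ), IsCNormal (mean β a) (cov a) ρ' ∧
        ∀ F : BoundedContinuousFunction (Fin n → ℂ) ℝ,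
          Tendsto (fun T : ℝ => (2 * δ T) ^ ((β / 2) ^ 2) / T *
            ∫ t in A T, ‖Z (δ T) 0 t‖ ^ β * F (ratio (δ T) a t)) atTop
            (𝓝 (ak (β / 2) * ∫ z, F (fun j => Complex.exp (z j)) ∂(ρ' : Measure (Fin n → ℂ)))) ∧
          Tendsto (fun T : ℝ => (∫ t in A T, ‖Z (δ T) 0 t‖ ^ β * F (ratio (δ T) a t)) /
            ∫ t in A T, ‖Z (δ T) 0 t‖ ^ β) atTop
            (𝓝 (∫ z, F (fun j => Complex.exp (z j)) ∂(ρ' : Measure (Fin n → ℂ)))) := by
    intro β hβ n a A ρ hρ h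
    obtain ⟨g, hg⟩ : ∃ g : (Fin (n + n) → ℝ) → (Fin n → ℂ), g = fun v j =>
        (Pool.Agent.V11128.CXL.yv v j : ℂ) + (Pool.Agent.V11128.CXL.xv v j : ℂ) * Complex.I := ⟨_, rfl⟩
    have hgc : Continuous g := by
      rw [hg]
      unfold Pool.Agent.V11128.CXL.yv Pool.Agent.V11128.CXL.xv
      fun_prop
    have hval : ∀ F : BoundedContinuousFunction (Fin n → ℂ) ℝ,
        ∫ z, F (fun j => Complex.exp (z j)) ∂((ρ.map hgc.measurable.aemeasurable : ProbabilityMeasure (Fin n → ℂ)) :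
          Measure (Fin n → ℂ)) = ∫ v, F (Pool.Agent.V11128.CXL.Rm v) ∂(ρ : Measure (Fin (n + n) → ℝ)) := by
      intro F
      have hin : Continuous (fun (z : Fin n → ℂ) (j : Fin n) => Complex.exp (z j)) := by fun_prop
      have hFc : Continuous (fun z : Fin n → ℂ => F (fun j => Complex.exp (z j))) := F.continuous.comp hin
      rw [ProbabilityMeasure.toMeasure_map, integral_map hgc.measurable.aemeasurable hFc.aestronglyMeasurable]
      refine integral_congr_ae (Eventually.of_forall fun v => ?_)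
      simp only [hg]
      rfl
    refine ⟨ρ.map hgc.measurable.aemeasurable, fun c => ?_, fun F => ?_⟩
    · obtain ⟨c', hc'⟩ : ∃ c' : Fin (n + n) → ℝ, c' = Fin.append (fun j => (c j).re) (fun j => -(c j).im) := ⟨_, rfl⟩
      have e1 : Pool.Agent.Y753.SHL.qf (Pool.Agent.V11128.CXL.CC a) c' =
          (∑ j, ∑ i, c j * (starRingEnd ℂ) (c i) * cov a j i).re / 2 := by
        rw [Pool.Agent.V11128.CXL.CC_qf, hc']
        simp_rw [Fin.append_left, Fin.append_right]
        have e2 : ∀ j, (((c j).re : ℝ) : ℂ) + ((-(c j).im : ℝ) : ℂ) * -Complex.I = c j := by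
          intro j
          push_cast
          rw [neg_mul_neg, Complex.re_add_im]
        simp_rw [e2]
        rfl
      have e3 : Pool.Agent.Y753.SHL.lf c' (Pool.Agent.V11128.CXL.mC β a) = (∑ j, c j * mean β a j).re := by
        unfold Pool.Agent.Y753.SHL.lf Pool.Agent.V11128.CXL.mC
        rw [hc', Fin.sum_univ_add]
        simp_rw [Fin.append_left, Fin.append_right, Pool.Agent.V11128.CXL.om_l, Pool.Agent.V11128.CXL.om_r,
          Pool.Agent.V11128.CXL.ix_l, Pool.Agent.V11128.CXL.ix_r]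
        rw [← Finset.sum_add_distrib, Complex.re_sum]
        refine Finset.sum_congr rfl fun j _ => ?_
        obtain ⟨z, hz⟩ : ∃ z : ℂ, z = mean β a j := ⟨_, rfl⟩
        have hz' : -(β / 2 : ℂ) * Pool.Agent.V11128.CXL.el (a j) = z := by rw [hz]; rfl
        rw [hz', ← hz, Complex.mul_re]
        simp
        ring
      obtain ⟨k1, k2⟩ := hρ c'
      rw [e1] at k1 k2
      rw [e3] at k2
      refine ⟨k1, ?_⟩
      rw [ProbabilityMeasure.toMeasure_map, Measure.map_map (by fun_prop) hgc.measurable, ← k2]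
      congr 1
      funext v
      simp only [Function.comp, hg]
      rw [hc', Pool.Agent.V11128.CXL.lf_append]
      unfold Pool.Agent.Y753.SHL.lf
      rw [← Finset.sum_add_distrib, Complex.re_sum]
      refine Finset.sum_congr rfl fun j _ => ?_
      rw [Complex.mul_re]
      simp
      ring
    · have hF := h F
      rw [← hval] at hF
      refine ⟨hF, ?_⟩
      have h1 := h (BoundedContinuousFunction.const _ 1)
      simp only [BoundedContinuousFunction.const_apply, mul_one, integral_const, smul_eq_mul,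
        probReal_univ] at h1
      have h2 := hF.div h1 (hpos β hβ).ne'
      rw [mul_div_cancel_left₀ _ (show Pool.Agent.H306R2.aF (β / 2) ≠ 0 from (hpos β hβ).ne')] at h2
      refine h2.congr' ?_
      filter_upwards [hδ0, eventually_gt_atTop (0 : ℝ)] with T h3 h4
      simp only [Pi.div_apply]
      rw [mul_div_mul_left]
      · rfl
      · positivity
  refine ⟨hpos, fun β hβ hβ4 n a => ?_, fun c hc S B hS hB hB0 => ?_⟩
  · obtain ⟨ρ, hρ, hF⟩ := Pool.Agent.V11128.CXL.full hδ hδL hβ hβ4 a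
    exact hquot β hβ n a _ ρ hρ hF
  · obtain ⟨E, hE, hvol, hm⟩ := Pool.Agent.V11128.CXL.small hδ hδL hc hS hB hB0
    refine ⟨E, hE, hvol, fun β hβ hcase n a ha => ?_⟩
    obtain ⟨ρ, hρ, hF⟩ := hm β hβ hcase n a ha
    exact hquot β (hB0 β hβ) n a _ ρ hρ hF

end Pool.Agent.Results.MP_f9aece_nt.ComplexLandscape
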