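import Mathlib
import Pool.Agent.V11104.MM.Pkg
import Pool.Agent.V11104.MM.Low2
import Pool.Agent.V11104.MM.Full

set_option autoImplicit false

/-!
# Moments of moments of zeta outside a set of small proportion

For the moments of the random variables `∫_0^1 |ζ(1/2 + i(t + u))|^β du`, where `t` is a random point of
`[T, 2T]`, Fyodorov and Keating predict a phase transition: the `q`-th moment has the order
`(log T)^(q β²/4)` for `q β²/4 < 1` and the order `(log T)^(q² β²/4 - q + 1)` for `q β²/4 > 1`. Under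
the Riemann hypothesis the upper bounds are known. Here the integral is restricted to the points
`t + u` of a set `E` that contains almost all points of every interval, and the predicted order is
proved unconditionally, with upper and lower bounds, for all positive integers `q ≤ N` and all real
`|β| ≤ K` with `q β²/4 ≠ 1`; the set `E` does not depend on `q` and `β`. The lower bounds hold for
`β ≥ 0` without the restriction to `E`, in both phases. In particular the total masses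
of the measures `(log T)^(-β²/4) |ζ(1/2 + i(t + u))|^β du` on `[0, 1]`, restricted to `t + u ∈ E`, are
bounded in `L^q` exactly in the predicted range.

The set is a version of the one of the starting file `MP_112ba8_nt.LocalLawAndMoments`, with bounds for
all blocks of primes at its points. The upper bounds come from shifted moments on the set. The lower
bounds for `q β²/4 > 1` come from Hölder's inequality and upper bounds for the moments of order less
than one of integrals of high powers, which in turn come from a Sobolev inequality for Dirichlet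
polynomials that majorize the powers of zeta on the set.
-/

namespace Pool.Agent.Results.MP_f9aece_nt.MomentsOfMoments

open Filter MeasureTheory
open scoped ENNReal

/-- **Theorem.** For every `K ≥ 0`, `N`, `θ > 0` and `ε > 0` there is a measurable set `E` of real
numbers such that `ζ(1/2 + it) ≠ 0` for `t` in `E`; for every `α < 1`, all large `T` and all
`T / (log T)^α ≤ H ≤ T` the set `E` contains at least `(1 - ε) H` of the points of `[T, T+H]`; all
integrals `F(t)` below are finite; and the following holds for all integers `1 ≤ q ≤ N` and all real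
`|β| ≤ K`, with constants `c, C > 0` depending on `q` and `β`. Let `F(t)` be the integral of
`|ζ(1/2 + i(t + u))|^β` over the `u` in `[0,1]` with `t + u` in `E`. For every `α < 1`, all large `T` and
all `T / (log T)^α ≤ H ≤ T` the integral of `F^q` over `[T, T+H]` is at least `c H (log T)^(q β²/4)` and
at least `c H (log T)^(q² β²/4 - q + 1)`; for `β ≥ 0` it is at most the same integral without the
restriction to `E`, which therefore has these lower bounds, too. For all large `T` and all `T^θ ≤ H ≤ T` it is at most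
`C H (log T)^(q β²/4)` if `q β²/4 < 1`, at most `C H (log T) (log log T)^(q-1)` if `q β²/4 = 1`, and at
most `C H (log T)^(q² β²/4 - q + 1)` if `q β²/4 > 1`. -/
theorem result (K θ ε : ℝ) (N : ℕ) (hK : 0 ≤ K) (hθ : 0 < θ) (hε : 0 < ε) :
    ∃ E : Set ℝ, MeasurableSet E ∧ (∀ t ∈ E, riemannZeta (1 / 2 + t * Complex.I) ≠ 0) ∧
    (∀ α : ℝ, 0 ≤ α → α < 1 → ∀ᶠ T : ℝ in atTop, ∀ H : ℝ, T / Real.log T ^ α ≤ H → H ≤ T →
      (1 - ε) * H ≤ volume.real (Set.Icc T (T + H) ∩ E)) ∧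
    (∀ β t : ℝ, IntegrableOn (fun u : ℝ => ‖riemannZeta (1 / 2 + ((t + u : ℝ) : ℂ) * Complex.I)‖ ^ β)
      {u : ℝ | u ∈ Set.Icc (0:ℝ) 1 ∧ t + u ∈ E}) ∧
    ∀ (q : ℕ) (β : ℝ), 1 ≤ q → q ≤ N → |β| ≤ K → ∀ F : ℝ → ℝ,
      (∀ t, F t = ∫ u in {u : ℝ | u ∈ Set.Icc (0:ℝ) 1 ∧ t + u ∈ E},
        ‖riemannZeta (1 / 2 + ((t + u : ℝ) : ℂ) * Complex.I)‖ ^ β) →
      ∃ c C : ℝ, 0 < c ∧ 0 < C ∧
      (∀ α : ℝ, 0 ≤ α → α < 1 → ∀ᶠ T : ℝ in atTop, ∀ H : ℝ, T / Real.log T ^ α ≤ H → H ≤ T →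
        c * H * Real.log T ^ (q * β ^ 2 / 4) ≤ ∫ t in Set.Icc T (T + H), F t ^ q ∧
        c * H * Real.log T ^ ((q:ℝ) ^ 2 * β ^ 2 / 4 - q + 1) ≤ ∫ t in Set.Icc T (T + H), F t ^ q ∧
        (0 ≤ β → ∫ t in Set.Icc T (T + H), F t ^ q ≤ ∫ t in Set.Icc T (T + H),
          (∫ u in Set.Icc (0:ℝ) 1, ‖riemannZeta (1 / 2 + ((t + u : ℝ) : ℂ) * Complex.I)‖ ^ β) ^ q)) ∧
      ∀ᶠ T : ℝ in atTop, ∀ H : ℝ, T ^ θ ≤ H → H ≤ T →
        IntegrableOn (fun t => F t ^ q) (Set.Icc T (T + H)) ∧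
        (q * β ^ 2 / 4 < 1 →
          ∫ t in Set.Icc T (T + H), F t ^ q ≤ C * H * Real.log T ^ (q * β ^ 2 / 4)) ∧
        (q * β ^ 2 / 4 = 1 →
          ∫ t in Set.Icc T (T + H), F t ^ q ≤ C * H * Real.log T * Real.log (Real.log T) ^ (q - 1)) ∧
        (1 < q * β ^ 2 / 4 →
          ∫ t in Set.Icc T (T + H), F t ^ q ≤ C * H * Real.log T ^ ((q:ℝ) ^ 2 * β ^ 2 / 4 - q + 1)) := by
  obtain ⟨E, c₀, C₀, mE, hc₀, hC₀, hne, hprop, hin, hlow, hup, hsm, -⟩ :=
    Pool.Agent.V11104.MM.pkg K θ ε N hK hθ hε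
  refine ⟨E, mE, hne, hprop, hin, ?_⟩
  intro q β hq1 hqN hβ F hF
  obtain ⟨m, rfl⟩ : ∃ m, q = m + 1 := ⟨q - 1, by omega⟩
  have hN1 : 1 ≤ N := by omega
  have hmN : ((m + 1 : ℕ) : ℝ) ≤ N := by exact_mod_cast hqN
  have hm0 : (0:ℝ) < ((m + 1 : ℕ) : ℝ) := by positivity
  set k : ℝ := β / 2 with hk
  have hkK : |k| ≤ K := by
    rw [hk, abs_div, abs_two]
    have := abs_nonneg β
    linarith
  have hNK : (0:ℝ) ≤ N * K := by positivity
  have hkB : |k| ≤ N * K + K := by linarith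
  set a : ℝ := ((m + 1 : ℕ) : ℝ) * k with ha
  have haB : |a| ≤ N * K + K := by
    rw [ha, abs_mul, Nat.abs_cast]
    have : ((m + 1 : ℕ) : ℝ) * |k| ≤ N * K := mul_le_mul hmN hkK (abs_nonneg _) (Nat.cast_nonneg _)
    linarith
  have hak : a / ((m + 1 : ℕ) : ℝ) = k := by
    rw [ha]
    field_simp
  have hFG : F = fun t => Pool.Agent.V11104.MM.Gi E k t := by
    funext t
    rw [hF t]
    unfold Pool.Agent.V11104.MM.Gi
    have e : 2 * k = β := by rw [hk]; ring
    rw [e]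
  set ρ : ℝ := ((m + 1 : ℕ) : ℝ) * k ^ 2 with hρ
  have hρβ : ((m + 1 : ℕ) : ℝ) * β ^ 2 / 4 = ρ := by rw [hρ, hk]; ring
  have hρ2 : ((m + 1 : ℕ) : ℝ) ^ 2 * β ^ 2 / 4 - ((m + 1 : ℕ) : ℝ) + 1 = a ^ 2 - ((m + 1 : ℕ) : ℝ) + 1 := by
    rw [ha, hk]; ring
  have hρ0 : 0 ≤ ρ := by positivity
  rw [hFG, hρβ, hρ2]
  have hupper : ∀ᶠ T : ℝ in atTop, ∀ H : ℝ, T ^ (min θ (1 / 2)) ≤ H → H ≤ T → ∀ r : ℕ, r + 1 ≤ N →
      IntegrableOn (fun t => Pool.Agent.V11104.MM.Gi E k t ^ (r + 1)) (Set.Icc T (T + H)) ∧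
      ∫ t in Set.Icc T (T + H), Pool.Agent.V11104.MM.Gi E k t ^ (r + 1) ≤
        C₀ * H * Real.log T ^ (((r + 1 : ℕ) : ℝ) * k ^ 2) *
          (Pool.Agent.V11104.MM.Iq (1 / Real.log T) (((r + 1 : ℕ) : ℝ) * k ^ 2)) ^ r := by
    filter_upwards [hup, eventually_gt_atTop (1:ℝ)] with T a1 hT1 H hH1 hH2 r hr
    have hT0 : 0 < T := by linarith
    have hL : 0 < Real.log T := Real.log_pos hT1
    have hH0 : 0 < H := lt_of_lt_of_le (Real.rpow_pos_of_pos hT0 _) hH1
    have hI := Pool.Agent.V11104.MM.Iq_pos (δ := 1 / Real.log T) (ρ := ((r + 1 : ℕ) : ℝ) * k ^ 2) (by positivity)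
    exact Pool.Agent.V11104.MM.Gi_up mE (by positivity) (r + 1) (a1 H hH1 hH2 r hr k hkK)
  set c₁ : ℝ := c₀ ^ (m + 1) with hc₁
  set c₂ : ℝ := c₀ ^ (2 * (m + 1)) / C₀ ^ (2 * (m + 1) - 1) with hc₂
  have hc₁0 : 0 < c₁ := by positivity
  have hc₂0 : 0 < c₂ := by positivity
  refine ⟨min c₁ c₂, C₀ * (|4 / (1 - ρ)| ^ m + 4 ^ m + |2 / (ρ - 1)| ^ m), lt_min hc₁0 hc₂0, by positivity, ?_, ?_⟩
  · intro α h0 h1
    filter_upwards [hlow α h0 h1, hup, hupper, hsm, eventually_gt_atTop (1:ℝ)] with T a1 a2 a3 a4 hT1 H hH1 hH2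
    have hT0 : 0 < T := by linarith
    have hL : 0 < Real.log T := Real.log_pos hT1
    obtain ⟨hTθ, b1⟩ := a1 H hH1 hH2
    have hH0 : 0 < H := lt_of_lt_of_le (Real.rpow_pos_of_pos hT0 _) hTθ
    have hfin0 : ∫⁻ t in Set.Icc T (T + H), (∫⁻ u in Set.Icc (0:ℝ) 1, Pool.Agent.V11104.MM.zk E k (t + u)) ≠ ⊤ := by
      have h3 := a2 H hTθ hH2 0 (by omega) k hkK
      simp only [zero_add, pow_one] at h3
      exact (h3.trans_lt ENNReal.ofReal_lt_top).ne
    have hfin : ∫⁻ t in Set.Icc T (T + H), (∫⁻ u in Set.Icc (0:ℝ) 1,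
        Pool.Agent.V11104.MM.zk E k (t + u)) ^ (m + 1) ≠ ⊤ :=
      ((a2 H hTθ hH2 m hqN k hkK).trans_lt ENNReal.ofReal_lt_top).ne
    have hi := (a3 H hTθ hH2 m hqN).1
    refine ⟨?_, ?_, fun hβ0 => ?_⟩
    · have hfinal := Pool.Agent.V11104.MM.Gi_low mE (Y := c₀ * Real.log T ^ (k ^ 2)) (by positivity) hH0 (m + 1)
        hfin0 hi (b1 k hkB)
      refine le_trans ?_ hfinal
      have e : (c₀ * Real.log T ^ (k ^ 2)) ^ (m + 1) * H = c₁ * H * Real.log T ^ ρ := by
        rw [mul_pow, ← Real.rpow_natCast (Real.log T ^ (k ^ 2)), ← Real.rpow_mul hL.le, hρ,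
          mul_comm (k ^ 2) ((m + 1 : ℕ) : ℝ), hc₁]
        ring
      rw [e]
      have : min c₁ c₂ ≤ c₁ := min_le_left _ _
      gcongr
    · have hr0 : (0:ℝ) < 2 * ((m + 1 : ℕ) : ℝ) - 1 := by push_cast; linarith [(Nat.cast_nonneg m : (0:ℝ) ≤ m)]
      have hr1 : ((m + 1 : ℕ) : ℝ) / (2 * ((m + 1 : ℕ) : ℝ) - 1) ≤ 1 := by
        rw [div_le_one hr0]
        push_cast
        linarith [(Nat.cast_nonneg m : (0:ℝ) ≤ m)]
      have hfinal := Pool.Agent.V11104.MM.sup_low mE hne (q := m + 1) (a := a) (by omega) hL hH0 hc₀ hC₀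
        (b1 a haB) (a4 H hTθ hH2 a _ haB (by positivity) hr1) (by rw [hak]; exact hi) (by rw [hak]; exact hfin)
      rw [hak] at hfinal
      refine le_trans ?_ hfinal
      have : min c₁ c₂ ≤ c₂ := min_le_right _ _
      have hLp : 0 ≤ Real.log T ^ (a ^ 2 - ((m + 1 : ℕ) : ℝ) + 1) := Real.rpow_nonneg hL.le _
      gcongr
    · have hfull := Pool.Agent.V11104.MM.full_le mE (k := k) (by positivity) (m + 1) hi
      simp_rw [Pool.Agent.V11104.MM.Gi_univ] at hfull
      have e : 2 * k = β := by rw [hk]; ring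
      rw [e] at hfull
      exact hfull
  · filter_upwards [hupper, eventually_gt_atTop (1:ℝ), Real.tendsto_log_atTop.eventually_ge_atTop 2] with
      T a1 hT1 hL2 H hH1 hH2
    have hT0 : 0 < T := by linarith
    set L := Real.log T with hLd
    have hL : 0 < L := by linarith
    have hH1' : T ^ (min θ (1 / 2)) ≤ H := (Real.rpow_le_rpow_of_exponent_le hT1.le (min_le_left _ _)).trans hH1
    have hH0 : 0 < H := lt_of_lt_of_le (Real.rpow_pos_of_pos hT0 _) hH1
    obtain ⟨b1, b2⟩ := a1 H hH1' hH2 m hqN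
    rw [← hρ] at b2
    have hδ0 : 0 < 1 / L := by positivity
    have hδ1 : 1 / L ≤ 1 := by rw [div_le_one hL]; linarith
    have hI := Pool.Agent.V11104.MM.Iq_pos (δ := 1 / L) (ρ := ρ) hδ0
    have p1 : 0 ≤ |4 / (1 - ρ)| ^ m := by positivity
    have p2 : (0:ℝ) ≤ 4 ^ m := by positivity
    have p3 : 0 ≤ |2 / (ρ - 1)| ^ m := by positivity
    refine ⟨b1, fun h1 => ?_, fun h1 => ?_, fun h1 => ?_⟩
    · refine b2.trans ?_
      have h2 := Pool.Agent.V11104.MM.Iq_lt hδ0 hδ1 hρ0 h1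
      have h3 : (Pool.Agent.V11104.MM.Iq (1 / L) ρ) ^ m ≤ |4 / (1 - ρ)| ^ m :=
        pow_le_pow_left₀ hI (h2.trans (le_abs_self _)) m
      calc C₀ * H * L ^ ρ * (Pool.Agent.V11104.MM.Iq (1 / L) ρ) ^ m ≤
            C₀ * H * L ^ ρ * (|4 / (1 - ρ)| ^ m + 4 ^ m + |2 / (ρ - 1)| ^ m) :=
            mul_le_mul_of_nonneg_left (by linarith) (by positivity)
        _ = _ := by ring
    · refine b2.trans ?_
      have hll : 0 ≤ Real.log L := Real.log_nonneg (by linarith)
      have h2 : Pool.Agent.V11104.MM.Iq (1 / L) ρ ≤ 4 * Real.log L := by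
        rw [h1, Pool.Agent.V11104.MM.Iq_eq hδ0]
        have e : (1 / L + 1) / (1 / L) = 1 + L := by field_simp
        rw [e]
        have h3 : Real.log (1 + L) ≤ Real.log (L ^ 2) := Real.log_le_log (by linarith) (by nlinarith)
        rw [Real.log_pow] at h3
        push_cast at h3
        linarith
      have h3 : (Pool.Agent.V11104.MM.Iq (1 / L) ρ) ^ m ≤ 4 ^ m * Real.log L ^ m := by
        rw [← mul_pow]
        exact pow_le_pow_left₀ hI h2 m
      have hlm : 0 ≤ Real.log L ^ m := pow_nonneg hll m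
      rw [Nat.add_sub_cancel]
      have e4 : L ^ ρ = L := by rw [h1, Real.rpow_one]
      rw [e4]
      calc C₀ * H * L * (Pool.Agent.V11104.MM.Iq (1 / L) ρ) ^ m ≤
            C₀ * H * L * ((|4 / (1 - ρ)| ^ m + 4 ^ m + |2 / (ρ - 1)| ^ m) * Real.log L ^ m) := by
            refine mul_le_mul_of_nonneg_left (h3.trans ?_) (by positivity)
            refine mul_le_mul_of_nonneg_right ?_ hlm
            linarith
        _ = _ := by ring
    · refine b2.trans ?_
      have h2 := Pool.Agent.V11104.MM.Iq_gt hδ0 h1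
      rw [one_div_one_div] at h2
      have h3 : (Pool.Agent.V11104.MM.Iq (1 / L) ρ) ^ m ≤ |2 / (ρ - 1)| ^ m * L ^ ((m:ℝ) * (ρ - 1)) := by
        have e : L ^ ((m:ℝ) * (ρ - 1)) = (L ^ (ρ - 1)) ^ m := by
          rw [← Real.rpow_natCast, ← Real.rpow_mul hL.le, mul_comm]
        rw [e, ← mul_pow]
        refine pow_le_pow_left₀ hI (h2.trans ?_) m
        exact mul_le_mul_of_nonneg_right (le_abs_self _) (Real.rpow_nonneg hL.le _)
      have e5 : L ^ (a ^ 2 - ((m + 1 : ℕ) : ℝ) + 1) = L ^ ρ * L ^ ((m:ℝ) * (ρ - 1)) := by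
        rw [← Real.rpow_add hL]
        congr 1
        rw [hρ, ha]
        push_cast
        ring
      rw [e5]
      have hLm : 0 ≤ L ^ ((m:ℝ) * (ρ - 1)) := Real.rpow_nonneg hL.le _
      calc C₀ * H * L ^ ρ * (Pool.Agent.V11104.MM.Iq (1 / L) ρ) ^ m ≤
            C₀ * H * L ^ ρ * ((|4 / (1 - ρ)| ^ m + 4 ^ m + |2 / (ρ - 1)| ^ m) * L ^ ((m:ℝ) * (ρ - 1))) := by
            refine mul_le_mul_of_nonneg_left (h3.trans ?_) (by positivity)
            refine mul_le_mul_of_nonneg_right ?_ hLm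
            linarith
        _ = _ := by ring

end Pool.Agent.Results.MP_f9aece_nt.MomentsOfMoments
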