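import Pool.Agent.V1167.PP.Main

set_option autoImplicit false

/-!
MP_f9aece_nt. The moments of all real orders near the critical line, with the law of the phases.

Let `δ(T) → 0`, `δ(T) log T → ∞` and `c ≥ 0`, and let `t` be uniformly distributed on `[0, T]`. Off a set
of measure `o(δ^(4+4c) T)` where `|ζ(1/2 + δ + it)| > δ^(-2-c)`, the moments of order `β`, `β ≤ 4` or
`β ≥ 4 + 4c`, on the line `Re s = 1/2 + δ` are asymptotic to `a(β/2) (2δ)^(-β²/4)` and, with respect to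
the weight `|ζ|^β`, the family `(p^(it))_p` of the phases of all the primes converges in law to
independent points `e(θ_p)`, `θ_p` with density proportional to `|1 - e(θ) / √p|^(-β)`, asymptotically
independent of `log |ζ|`, which is asymptotically normal with mean `(β/2) log (1/(2δ))` and variance
`(1/2) log (1/(2δ))`.
-/

open Filter MeasureTheory Topology

namespace Pool.Agent.Results.MP_f9aece_nt.PrimePhases

/-- The coefficient `s (s + 1) ⋯ (s + m - 1) / m!` of `x^m` in `(1 - x)^(-s)`. -/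
noncomputable def ds (s : ℝ) (m : ℕ) : ℝ := ∏ i ∈ Finset.range m, (s + i) / ((i : ℝ) + 1)

/-- The arithmetic factor `a(s) = ∏_p (1 - 1/p)^(s²) ∑_m ds(m)² p^(-m)`. -/
noncomputable def ak (s : ℝ) : ℝ :=
  ∏' p : Nat.Primes, ((1 - 1 / (p : ℝ)) ^ (s ^ 2) * ∑' m : ℕ, ds s m ^ 2 * (1 / (p : ℝ)) ^ m)

/-- `|ζ(1/2 + δ + it)|`. -/
noncomputable def Z (δ t : ℝ) : ℝ := ‖riemannZeta (((1 / 2 + δ : ℝ) : ℂ) + t * Complex.I)‖

/-- `log |ζ|` minus `s log (1/(2δ))`, divided by `√((1/2) log (1/(2δ)))`. -/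
noncomputable def N (s δ t : ℝ) : ℝ :=
  (Real.log (Z δ t) - s * Real.log (1 / (2 * δ))) / Real.sqrt (Real.log (1 / (2 * δ)) / 2)

/-- `e(x) = exp(2πix)`. -/
noncomputable def e (x : ℝ) : ℂ := Complex.exp (2 * Real.pi * Complex.I * x)

/-- The `2s`-th power `|1 - e(x) / √p|^(-2s)` of the Euler factor at `p`. -/
noncomputable def euler (s : ℝ) (p : ℕ) (x : ℝ) : ℝ := ‖1 - e x / (Real.sqrt p : ℂ)‖ ^ (-(2 * s))

/-- The probability measure on `[0, 1]` whose density is proportional to `|1 - e(x) / √p|^(-2s)`. -/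
noncomputable def phaseLaw (s : ℝ) (p : ℕ) : Measure ℝ :=
  (volume.restrict (Set.Icc (0:ℝ) 1)).withDensity
    fun x => ENNReal.ofReal (euler s p x / ∫ y in Set.Icc (0:ℝ) 1, euler s p y)

/-- `∫_A |ζ|^β F(N) G((p^(it))_p) dt`, where `ζ = ζ(1/2 + δ + it)`. -/
noncomputable def W (β : ℝ) (F : BoundedContinuousFunction ℝ ℝ) (G : (Nat.Primes → ℂ) → ℂ) (δ : ℝ)
    (A : Set ℝ) : ℂ :=
  ∫ t in A, ((Z δ t ^ β * F (N (β / 2) δ t) : ℝ) : ℂ) * G (fun p => ((p : ℕ) : ℂ) ^ ((t:ℂ) * Complex.I))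

/-- `a(β/2) (∫ F dγ) 𝔼 G((e(θ_p))_p)`, where `γ` is the standard normal law and the `θ_p` are
independent with laws `phaseLaw (β/2) p`. -/
noncomputable def limitValue (β : ℝ) (F : BoundedContinuousFunction ℝ ℝ) (G : (Nat.Primes → ℂ) → ℂ) : ℂ :=
  ((ak (β / 2) * ∫ x, F x ∂(ProbabilityTheory.gaussianReal 0 1) : ℝ) : ℂ) *
    ∫ θ, G (fun p => e (θ p)) ∂(Measure.infinitePi fun p : Nat.Primes => phaseLaw (β / 2) p)

/-- Let `δ(T) → 0`, `δ(T) log T → ∞` and `c ≥ 0`. There are sets `E(T) ⊆ [0, T]` of measure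
`o(δ^(4+4c) T)` on which `|ζ(1/2 + δ + it)| > δ^(-2-c)`, such that for all real `β > 0` with `β ≤ 4` or
`β ≥ 4 + 4c` (for all `β > 0`, if `c = 0`), all bounded continuous `F : ℝ → ℝ` and all continuous
functions `G` of the family `(p^(it))_p` indexed by all the primes

`(2δ)^(β²/4) (1/T) ∫_{[0,T] \ E(T)} |ζ|^β F(N) G((p^(it))_p) dt → a(β/2) (∫ F dγ) 𝔼 G((e(θ_p))_p)`,

where `ζ = ζ(1/2 + δ + it)`, `N = (log |ζ| - (β/2) log (1/(2δ))) / √((1/2) log (1/(2δ)))`, `γ` is the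
standard normal law and the `θ_p` are independent with laws `phaseLaw (β/2) p`. For `β ≤ 4` the same
holds with the integral over the whole interval `[0, T]`. -/
theorem result (δ : ℝ → ℝ) (hδ : Tendsto δ atTop (𝓝 0))
    (hδL : Tendsto (fun T : ℝ => δ T * Real.log T) atTop atTop) (c : ℝ) (hc : 0 ≤ c) :
    ∃ E : ℝ → Set ℝ,
      (∀ T, MeasurableSet (E T) ∧ E T ⊆ Set.Icc 0 T ∧ ∀ t ∈ E T, (δ T) ^ (-(2 + c)) < Z (δ T) t) ∧
      Tendsto (fun T => (volume (E T)).toReal / (T * (δ T) ^ (4 + 4 * c))) atTop (𝓝 0) ∧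
      ∀ β : ℝ, 0 < β → 0 < ak (β / 2) ∧
        ∀ F : BoundedContinuousFunction ℝ ℝ, ∀ G : (Nat.Primes → ℂ) → ℂ, Continuous G →
          ((β ≤ 4 ∨ 4 + 4 * c ≤ β) → Tendsto (fun T : ℝ => (((2 * δ T) ^ (β ^ 2 / 4) / T : ℝ) : ℂ) *
            W β F G (δ T) (Set.Icc 0 T \ E T)) atTop (𝓝 (limitValue β F G))) ∧
          (β ≤ 4 → Tendsto (fun T : ℝ => (((2 * δ T) ^ (β ^ 2 / 4) / T : ℝ) : ℂ) *
            W β F G (δ T) (Set.Icc 0 T)) atTop (𝓝 (limitValue β F G))) := by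
  obtain ⟨E, hE, hvol, hm⟩ := Pool.Agent.V1167.PP.prime_phases hδ hδL hc
  refine ⟨E, fun T => ⟨(hE T).1, (hE T).2.1, fun t ht => (hE T).2.2 t ht⟩, hvol, fun β hβ =>
    ⟨Pool.Agent.H306R2.aF_pos (by positivity), fun F G hG => ?_⟩⟩
  have e3 : ((β / 2) ^ 2) = β ^ 2 / 4 := by ring
  have e4 : (2 * (β / 2)) = β := by ring
  constructor
  · intro hcase
    have h3 := (hm (β / 2) (by positivity) (by
      rcases hcase with h | h
      · left; linarith
      · right; linarith)).2 F G hG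
    rw [e3, e4] at h3
    exact h3
  · intro hβ2
    have h3 := Pool.Agent.V1167.PP.full_phases hδ hδL (s := β / 2) (by positivity) (by linarith) F hG
    rw [e3, e4] at h3
    exact h3

end Pool.Agent.Results.MP_f9aece_nt.PrimePhases
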