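import Mathlib
import Pool.Agent.V11273.WC.Gen
import Pool.Agent.Results.MP_f9aece_nt.TwoSidedNearTwo

set_option autoImplicit false

/-!
MP_f9aece_nt, exponents `β(T) → 2`: where the moments come from.
Unconditionally, with respect to the weight `|ζ|^β(T)`, `log |ζ|` is asymptotically normal with mean
`(β(T)/2) log log T` and variance `(1/2) log log T`, with convergence of the averages of all continuous functions of
exponential growth; the log-moments `∫ |ζ|^β (log |ζ|)^k` are asymptotic to `(log T)^(β²/4) (log log T)^k`; and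
`|ζ| > (log T)^κ(T)`, `κ(T) → 1`, on a set of measure `(log T)^(-κ²) exp (o (√(log log T)))`.
-/

open MeasureTheory Filter Topology ProbabilityTheory

namespace Pool.Agent.Results.MP_f9aece_nt.WeightedGaussian

noncomputable section

/-- `|ζ(1/2 + ix + iuT)|` -/
def Z (x T u : ℝ) : ℝ := ‖riemannZeta (1 / 2 + x * Complex.I + (u * T) * Complex.I)‖

/-- `log log T` -/
def LL (T : ℝ) : ℝ := Real.log (Real.log T)

/-- the moment `a(T)` of the problem with exponent `β` -/
def mom (x T β : ℝ) : ℝ := ∫ u in (0:ℝ)..1, Z x T u ^ β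

/-- `(log |ζ| - (β/2) log log T) / √((1/2) log log T)` -/
def N (x T β u : ℝ) : ℝ := (Real.log (Z x T u) - β / 2 * LL T) / Real.sqrt (LL T / 2)

/-- the average of `f(N)` with respect to the weight `|ζ|^β` -/
def avg (x T β : ℝ) (f : ℝ → ℝ) : ℝ := (∫ u in (0:ℝ)..1, f (N x T β u) * Z x T u ^ β) / mom x T β

open Pool.Agent.V11273.WC

lemma Z_nonneg (x T u : ℝ) : 0 ≤ Z x T u := norm_nonneg _

lemma Z_cont (x T : ℝ) : Continuous (Z x T) := by
  refine Continuous.norm (continuous_iff_continuousAt.2 fun u => ?_)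
  have hne : (1 / 2 + x * Complex.I + (u * T) * Complex.I : ℂ) ≠ 1 := by
    intro h
    have := congrArg Complex.re h
    simp at this
  exact ContinuousAt.comp (f := fun u : ℝ => (1 / 2 + x * Complex.I + (u * T) * Complex.I : ℂ))
    (g := riemannZeta) (differentiableAt_riemannZeta hne).continuousAt (by fun_prop)

lemma w_cont (x T : ℝ) {β : ℝ} (hβ : 0 ≤ β) : Continuous fun u => Z x T u ^ β :=
  (Z_cont x T).rpow_const fun _ => Or.inr hβ

lemma N_meas (x T β : ℝ) : Measurable (N x T β) := by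
  unfold N
  exact ((Real.measurable_log.comp (Z_cont x T).measurable).sub_const _).div_const _

lemma LL_top : Tendsto LL atTop atTop := Real.tendsto_log_atTop.comp Real.tendsto_log_atTop

lemma sig_top : Tendsto (fun T => Real.sqrt (LL T / 2)) atTop atTop :=
  Real.tendsto_sqrt_atTop.comp (LL_top.atTop_div_const two_pos)

/-- the moments for exponents tending to `2` -/
lemma mom_as (x : ℝ) {β : ℝ → ℝ} (hβ : Tendsto β atTop (𝓝 2)) :
    Tendsto (fun T => mom x T (β T) / Real.exp (β T ^ 2 / 4 * LL T)) atTop (𝓝 1) := by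
  rw [Metric.tendsto_nhds]
  intro ε hε
  obtain ⟨δ, h0, h1⟩ := Pool.Agent.Results.MP_f9aece_nt.TwoSidedNearTwo.result (ε / 2) (half_pos hε)
  filter_upwards [h1 x, (Metric.tendsto_nhds.1 hβ) δ h0] with T h2 h3
  rw [Real.dist_eq] at h3 ⊢
  exact (h2 (β T) h3.le).trans_lt (half_lt_self hε)

lemma mom_pos (x : ℝ) {β : ℝ → ℝ} (hβ : Tendsto β atTop (𝓝 2)) : ∀ᶠ T in atTop, 0 < mom x T (β T) := by
  have h := (mom_as x hβ).eventually (lt_mem_nhds (show (0:ℝ) < 1 by norm_num))
  filter_upwards [h] with T hT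
  by_contra hcon
  push Not at hcon
  have := div_nonpos_of_nonpos_of_nonneg hcon (Real.exp_pos (β T ^ 2 / 4 * LL T)).le
  linarith

/-- exponential tilting -/
lemma tilt (x : ℝ) {T β s : ℝ} (hσ : 0 < Real.sqrt (LL T / 2)) (hβ : 0 < β)
    (hβ' : 0 < β + s / Real.sqrt (LL T / 2)) (u : ℝ) :
    Real.exp (s * N x T β u) * Z x T u ^ β =
      Real.exp (-(s * (β / 2 * LL T) / Real.sqrt (LL T / 2))) * Z x T u ^ (β + s / Real.sqrt (LL T / 2)) := by
  rcases (Z_nonneg x T u).lt_or_eq with h | h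
  · rw [Real.rpow_def_of_pos h, Real.rpow_def_of_pos h, ← Real.exp_add, ← Real.exp_add]
    congr 1
    unfold N
    field_simp
    ring
  · rw [← h, Real.zero_rpow hβ.ne', Real.zero_rpow hβ'.ne', mul_zero, mul_zero]

lemma shift_tend {β : ℝ → ℝ} (hβ : Tendsto β atTop (𝓝 2)) (s : ℝ) :
    Tendsto (fun T => β T + s / Real.sqrt (LL T / 2)) atTop (𝓝 2) := by
  have h := hβ.add ((tendsto_const_nhds (x := s)).div_atTop sig_top)
  rwa [add_zero] at h

/-- the moment generating function -/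
lemma mgf_tend (x : ℝ) {β : ℝ → ℝ} (hβ : Tendsto β atTop (𝓝 2)) (s : ℝ) :
    Tendsto (fun T => avg x T (β T) fun y => Real.exp (s * y)) atTop (𝓝 (Real.exp (s ^ 2 / 2))) := by
  have hβ' := shift_tend hβ s
  have h1 := mom_as x hβ
  have h2 := mom_as x hβ'
  have h3 := (h2.div h1 one_ne_zero).mul_const (Real.exp (s ^ 2 / 2))
  rw [div_one, one_mul] at h3
  refine h3.congr' ?_
  filter_upwards [hβ.eventually (lt_mem_nhds (show (0:ℝ) < 2 by norm_num)),
    hβ'.eventually (lt_mem_nhds (show (0:ℝ) < 2 by norm_num)), sig_top.eventually_gt_atTop 0,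
    mom_pos x hβ, LL_top.eventually_gt_atTop 0] with T a1 a2 a3 a4 a5
  set σ := Real.sqrt (LL T / 2) with hσ
  have hσ2 : σ ^ 2 = LL T / 2 := Real.sq_sqrt (by linarith)
  have e1 : avg x T (β T) (fun y => Real.exp (s * y)) =
      Real.exp (-(s * (β T / 2 * LL T) / σ)) * mom x T (β T + s / σ) / mom x T (β T) := by
    unfold avg mom
    congr 1
    rw [← intervalIntegral.integral_const_mul]
    exact intervalIntegral.integral_congr fun u _ => tilt x a3 a1 a2 u
  rw [e1, Pi.div_apply, ← hσ]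
  have e2 : Real.exp ((β T + s / σ) ^ 2 / 4 * LL T) =
      Real.exp (β T ^ 2 / 4 * LL T) * Real.exp (s * (β T / 2 * LL T) / σ) * Real.exp (s ^ 2 / 2) := by
    rw [← Real.exp_add, ← Real.exp_add]
    congr 1
    have hL : LL T = 2 * σ ^ 2 := by rw [hσ2]; ring
    rw [hL]
    field_simp
    ring
  rw [e2, Real.exp_neg]
  have p1 := Real.exp_pos (β T ^ 2 / 4 * LL T)
  have p2 := Real.exp_pos (s * (β T / 2 * LL T) / σ)
  have p3 := Real.exp_pos (s ^ 2 / 2)
  field_simp

/-- the law of `N` with respect to the weight -/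
def law (x T β : ℝ) : ProbabilityMeasure ℝ :=
  open Classical in
  if h : 0 < β ∧ 0 < mom x T β then
    ⟨wm (fun u => Z x T u ^ β) (N x T β), wm_prob (w_cont x T h.1.le)
      (fun u => Real.rpow_nonneg (Z_nonneg x T u) _) h.2 (N_meas x T β)⟩
  else gs

lemma law_eq {x T β : ℝ} (h : 0 < β ∧ 0 < mom x T β) :
    (law x T β : Measure ℝ) = wm (fun u => Z x T u ^ β) (N x T β) := by
  unfold law
  rw [dif_pos h]
  rfl

lemma law_int {x T β : ℝ} (h : 0 < β ∧ 0 < mom x T β) {f : ℝ → ℝ} (hf : Measurable f) :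
    ∫ y, f y ∂(law x T β : Measure ℝ) = avg x T β f := by
  rw [law_eq h, wm_int (w_cont x T h.1.le) (fun u => Real.rpow_nonneg (Z_nonneg x T u) _) h.2 (N_meas x T β) hf]
  rfl

lemma good (x : ℝ) {β : ℝ → ℝ} (hβ : Tendsto β atTop (𝓝 2)) : ∀ᶠ T in atTop, 0 < β T ∧ 0 < mom x T (β T) :=
  (hβ.eventually (lt_mem_nhds (show (0:ℝ) < 2 by norm_num))).and (mom_pos x hβ)

lemma law_exp (x : ℝ) {β : ℝ → ℝ} (hβ : Tendsto β atTop (𝓝 2)) (s : ℝ) :
    ∀ᶠ T in atTop, Integrable (fun y => Real.exp (s * y)) (law x T (β T) : Measure ℝ) := by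
  have hβ' := shift_tend hβ s
  filter_upwards [good x hβ, hβ'.eventually (lt_mem_nhds (show (0:ℝ) < 2 by norm_num)),
    sig_top.eventually_gt_atTop 0] with T h a2 a3
  rw [law_eq h]
  refine wm_integrable (w_cont x T h.1.le) (fun u => Real.rpow_nonneg (Z_nonneg x T u) _) h.2 (N_meas x T _)
    (by fun_prop) ?_
  have h1 : (fun u => Real.exp (s * N x T (β T) u) * Z x T u ^ β T) = fun u =>
      Real.exp (-(s * (β T / 2 * LL T) / Real.sqrt (LL T / 2))) * Z x T u ^ (β T + s / Real.sqrt (LL T / 2)) := by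
    funext u
    exact tilt x a3 h.1 a2 u
  rw [h1]
  exact ((intervalIntegrable_iff_integrableOn_Ioc_of_le zero_le_one).1
    ((w_cont x T a2.le).intervalIntegrable 0 1)).const_mul _

lemma law_mgf (x : ℝ) {β : ℝ → ℝ} (hβ : Tendsto β atTop (𝓝 2)) (s : ℝ) :
    Tendsto (fun T => ∫ y, Real.exp (s * y) ∂(law x T (β T) : Measure ℝ)) atTop
      (𝓝 (∫ y, Real.exp (s * y) ∂(gs : Measure ℝ))) := by
  rw [gs_exp]
  refine (mgf_tend x hβ s).congr' ?_
  filter_upwards [good x hβ] with T h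
  exact (law_int h (by fun_prop)).symm

lemma law_tend (x : ℝ) {β : ℝ → ℝ} (hβ : Tendsto β atTop (𝓝 2)) :
    Tendsto (fun T => law x T (β T)) atTop (𝓝 gs) :=
  Pool.Agent.Y753.NL.curtiss (law_exp x hβ) (law_mgf x hβ)

lemma part1 (x : ℝ) {β : ℝ → ℝ} (hβ : Tendsto β atTop (𝓝 2)) {f : ℝ → ℝ} (hf : Continuous f)
    (hb : ∃ C A : ℝ, ∀ y, |f y| ≤ C * Real.exp (A * |y|)) :
    Tendsto (fun T => avg x T (β T) f) atTop (𝓝 (∫ y, f y ∂gaussianReal 0 1)) := by
  obtain ⟨C, A, hb⟩ := hb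
  refine (exp_growth (law_exp x hβ) gs_int (law_mgf x hβ) hf hb).congr' ?_
  filter_upwards [good x hβ] with T h
  exact law_int h hf.measurable

lemma part2 (x : ℝ) {β : ℝ → ℝ} (hβ : Tendsto β atTop (𝓝 2)) (y : ℝ) :
    Tendsto (fun T => avg x T (β T) ((Set.Iic y).indicator 1)) atTop (𝓝 ((gaussianReal 0 1).real (Set.Iic y))) := by
  have h1 := ProbabilityMeasure.tendsto_measure_of_null_frontier_of_tendsto' (law_tend x hβ) (E := Set.Iic y) (by
    rw [frontier_Iic]
    have : NullSingletonClass (gaussianReal 0 1) := nullSingletonClass_gaussianReal one_ne_zero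
    exact measure_singleton (μ := gaussianReal 0 1) y)
  have h2 := (ENNReal.tendsto_toReal (measure_ne_top (gaussianReal 0 1) (Set.Iic y))).comp h1
  refine h2.congr' ?_
  filter_upwards [good x hβ] with T h
  rw [← law_int h (measurable_one.indicator measurableSet_Iic), integral_indicator_one measurableSet_Iic]
  rfl

lemma poly_bd (j : ℕ) (y : ℝ) : |y ^ j| ≤ (j.factorial : ℝ) * Real.exp (1 * |y|) := by
  rw [abs_pow, one_mul]
  have h := Real.pow_div_factorial_le_exp |y| (abs_nonneg y) j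
  rwa [div_le_iff₀' (by positivity)] at h

lemma part3 (x : ℝ) {β : ℝ → ℝ} (hβ : Tendsto β atTop (𝓝 2)) (k : ℕ) :
    Tendsto (fun T => (∫ u in (0:ℝ)..1, Z x T u ^ β T * Real.log (Z x T u) ^ k) /
      (Real.exp (β T ^ 2 / 4 * LL T) * LL T ^ k)) atTop (𝓝 1) := by
  have hδ : Tendsto (fun T => Real.sqrt (LL T / 2) / LL T) atTop (𝓝 0) := by
    have h1 : Tendsto (fun T => (2 * Real.sqrt (LL T / 2))⁻¹) atTop (𝓝 0) :=
      tendsto_inv_atTop_zero.comp (sig_top.const_mul_atTop two_pos)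
    refine h1.congr' ?_
    filter_upwards [LL_top.eventually_gt_atTop 0] with T h
    have h2 : Real.sqrt (LL T / 2) ^ 2 = LL T / 2 := Real.sq_sqrt (by linarith)
    have h3 : 0 < Real.sqrt (LL T / 2) := Real.sqrt_pos.2 (by linarith)
    have h4 : LL T = 2 * Real.sqrt (LL T / 2) ^ 2 := by rw [h2]; ring
    set σ := Real.sqrt (LL T / 2)
    rw [h4]
    field_simp
  have hsum : Tendsto (fun T => mom x T (β T) / Real.exp (β T ^ 2 / 4 * LL T) *
      ∑ j ∈ Finset.range (k + 1), (Real.sqrt (LL T / 2) / LL T) ^ j * (β T / 2) ^ (k - j) * (k.choose j : ℝ) *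
        avg x T (β T) (fun y => y ^ j)) atTop
      (𝓝 (1 * ∑ j ∈ Finset.range (k + 1), (0:ℝ) ^ j * (2 / 2 : ℝ) ^ (k - j) * (k.choose j : ℝ) *
        ∫ y, y ^ j ∂gaussianReal 0 1)) := by
    refine (mom_as x hβ).mul (tendsto_finsetSum _ fun j _ => ?_)
    exact (((hδ.pow j).mul ((hβ.div_const 2).pow _)).mul_const _).mul
      (part1 x hβ (by fun_prop) ⟨_, _, poly_bd j⟩)
  have e0 : (1 * ∑ j ∈ Finset.range (k + 1), (0:ℝ) ^ j * (2 / 2 : ℝ) ^ (k - j) * (k.choose j : ℝ) *
      ∫ y, y ^ j ∂gaussianReal 0 1) = 1 := by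
    rw [Finset.sum_eq_single 0]
    · simp
    · intro j _ hj
      rw [zero_pow hj]
      ring
    · intro h
      exact absurd (Finset.mem_range.2 (Nat.succ_pos k)) h
  rw [e0] at hsum
  refine hsum.congr' ?_
  filter_upwards [good x hβ, LL_top.eventually_gt_atTop 0, law_exp x hβ 1, law_exp x hβ (-1)] with T h hL he1 he2
  set σ := Real.sqrt (LL T / 2) with hσ
  have hσ0 : 0 < σ := Real.sqrt_pos.2 (by linarith)
  have e1 : ∀ u, Real.log (Z x T u) = σ * N x T (β T) u + β T / 2 * LL T := by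
    intro u
    unfold N
    rw [← hσ]
    field_simp
    ring
  have hpow : ∀ j : ℕ, Integrable (fun y : ℝ => y ^ j) (law x T (β T) : Measure ℝ) := by
    intro j
    refine Integrable.mono' ((he1.add he2).const_mul (j.factorial : ℝ)) (by fun_prop) (Eventually.of_forall fun y => ?_)
    rw [Real.norm_eq_abs]
    refine (poly_bd j y).trans (mul_le_mul_of_nonneg_left ?_ (by positivity))
    show Real.exp (1 * |y|) ≤ Real.exp (1 * y) + Real.exp ((-1) * y)
    have p1 := Real.exp_pos (1 * y)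
    have p2 := Real.exp_pos ((-1) * y)
    rcases le_total 0 y with h0 | h0
    · rw [abs_of_nonneg h0]; linarith
    · rw [abs_of_nonpos h0]
      have e : (1 : ℝ) * -y = (-1) * y := by ring
      rw [e]; linarith
  set c := β T / 2 * LL T with hc
  have e2 : (∫ u in (0:ℝ)..1, Z x T u ^ β T * Real.log (Z x T u) ^ k) =
      mom x T (β T) * ∫ y, (σ * y + c) ^ k ∂(law x T (β T) : Measure ℝ) := by
    rw [law_int h (by fun_prop)]
    unfold avg
    rw [mul_div_cancel₀ _ h.2.ne']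
    refine intervalIntegral.integral_congr fun u _ => ?_
    show Z x T u ^ β T * Real.log (Z x T u) ^ k = (σ * N x T (β T) u + c) ^ k * Z x T u ^ β T
    rw [e1 u, mul_comm]
  have e3 : ∫ y, (σ * y + c) ^ k ∂(law x T (β T) : Measure ℝ) =
      ∑ j ∈ Finset.range (k + 1), σ ^ j * c ^ (k - j) * (k.choose j : ℝ) * avg x T (β T) (fun y => y ^ j) := by
    have e4 : (fun y : ℝ => (σ * y + c) ^ k) = fun y : ℝ =>
        ∑ j ∈ Finset.range (k + 1), (σ ^ j * c ^ (k - j) * (k.choose j : ℝ)) * y ^ j := by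
      funext y
      rw [add_pow]
      refine Finset.sum_congr rfl fun j _ => ?_
      rw [mul_pow]
      ring
    rw [e4, integral_finsetSum _ fun j _ => (hpow j).const_mul _]
    refine Finset.sum_congr rfl fun j _ => ?_
    rw [integral_const_mul, law_int h (by fun_prop)]
  rw [e2, e3]
  have hLk : LL T ^ k ≠ 0 := pow_ne_zero _ hL.ne'
  have hE := (Real.exp_pos (β T ^ 2 / 4 * LL T)).ne'
  have e5 : ∑ j ∈ Finset.range (k + 1), σ ^ j * c ^ (k - j) * (k.choose j : ℝ) * avg x T (β T) (fun y => y ^ j) =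
      LL T ^ k * ∑ j ∈ Finset.range (k + 1), (σ / LL T) ^ j * (β T / 2) ^ (k - j) * (k.choose j : ℝ) *
        avg x T (β T) (fun y => y ^ j) := by
    rw [Finset.mul_sum]
    refine Finset.sum_congr rfl fun j hj => ?_
    rw [Finset.mem_range] at hj
    have e6 : LL T ^ k = LL T ^ j * LL T ^ (k - j) := by rw [← pow_add]; congr 1; omega
    rw [hc, e6]
    simp only [mul_pow, div_pow]
    field_simp
  rw [e5]
  field_simp

/-- the logarithm of the moment -/
lemma log_mom (x : ℝ) {β : ℝ → ℝ} (hβ : Tendsto β atTop (𝓝 2)) :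
    Tendsto (fun T => Real.log (mom x T (β T)) - β T ^ 2 / 4 * LL T) atTop (𝓝 0) := by
  have h := (Real.continuousAt_log one_ne_zero).tendsto.comp (mom_as x hβ)
  rw [Real.log_one] at h
  refine h.congr' ?_
  filter_upwards [mom_pos x hβ] with T hT
  rw [Function.comp_apply, Real.log_div hT.ne' (Real.exp_pos _).ne', Real.log_exp]

lemma ind_int {w X : ℝ → ℝ} (hw : Continuous w) (hX : Measurable X) {E : Set ℝ} (hE : MeasurableSet E) :
    IntegrableOn (fun u => E.indicator 1 (X u) * w u) (Set.Ioc 0 1) := by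
  have h1 : IntegrableOn w (Set.Ioc 0 1) := wint hw
  refine Integrable.mono' h1.abs (((measurable_one.indicator hE).comp hX).mul hw.measurable).aestronglyMeasurable
    (Eventually.of_forall fun u => ?_)
  rw [Real.norm_eq_abs, abs_mul]
  refine mul_le_of_le_one_left (abs_nonneg _) ?_
  by_cases hu : X u ∈ E
  · rw [Set.indicator_of_mem hu]; simp
  · rw [Set.indicator_of_notMem hu]; simp

/-- bounds for the measure of the set of large values -/
lemma large_bounds {x T β : ℝ} (hβ : 0 < β) (hL : 0 < LL T) (hm : 0 < mom x T β) {δ : ℝ} (hδ : 0 < δ) :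
    (volume {u : ℝ | 0 < u ∧ u ≤ 1 ∧ β / 2 * LL T < Real.log (Z x T u)}).toReal ≤
      Real.exp (-(β ^ 2 / 2 * LL T)) * mom x T β ∧
    Real.exp (-(β ^ 2 / 2 * LL T) - β * δ * Real.sqrt (LL T / 2)) * mom x T β *
      (avg x T β ((Set.Iic δ).indicator 1) - avg x T β ((Set.Iic 0).indicator 1)) ≤
      (volume {u : ℝ | 0 < u ∧ u ≤ 1 ∧ β / 2 * LL T < Real.log (Z x T u)}).toReal := by
  set σ := Real.sqrt (LL T / 2) with hσ
  have hσ0 : 0 < σ := Real.sqrt_pos.2 (by linarith)
  have hN : ∀ u, Real.log (Z x T u) = σ * N x T β u + β / 2 * LL T := by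
    intro u
    unfold N
    rw [← hσ]
    field_simp
    ring
  have hset : {u : ℝ | 0 < u ∧ u ≤ 1 ∧ β / 2 * LL T < Real.log (Z x T u)} =
      {u : ℝ | 0 < N x T β u} ∩ Set.Ioc 0 1 := by
    ext u
    show (0 < u ∧ u ≤ 1 ∧ β / 2 * LL T < Real.log (Z x T u)) ↔ (0 < N x T β u ∧ (0 < u ∧ u ≤ 1))
    have : β / 2 * LL T < Real.log (Z x T u) ↔ 0 < N x T β u := by
      rw [hN u]
      constructor
      · intro h
        by_contra hcon
        push Not at hcon
        have := mul_nonpos_of_nonneg_of_nonpos hσ0.le hcon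
        linarith
      · intro h
        have := mul_pos hσ0 h
        linarith
    rw [this]
    tauto
  set E : Set ℝ := {u : ℝ | 0 < N x T β u} with hE
  have hEm : MeasurableSet E := measurableSet_lt measurable_const (N_meas x T β)
  have hV : (volume {u : ℝ | 0 < u ∧ u ≤ 1 ∧ β / 2 * LL T < Real.log (Z x T u)}).toReal =
      ∫ u in Set.Ioc (0:ℝ) 1, E.indicator 1 u := by
    rw [hset, integral_indicator_one hEm, measureReal_def, Measure.restrict_apply hEm]
  have hEi : IntegrableOn (fun u => E.indicator (1 : ℝ → ℝ) u) (Set.Ioc 0 1) :=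
    (integrable_const (1:ℝ)).indicator hEm
  have hw := w_cont x T hβ.le
  have hwi : IntegrableOn (fun u => Z x T u ^ β) (Set.Ioc 0 1) := wint hw
  have hmomI : mom x T β = ∫ u in Set.Ioc (0:ℝ) 1, Z x T u ^ β := intervalIntegral.integral_of_le zero_le_one
  have hZpos : ∀ u, 0 < N x T β u → 0 < Z x T u := by
    intro u hu
    rcases (Z_nonneg x T u).lt_or_eq with h | h
    · exact h
    · exfalso
      have h1 := hN u
      rw [← h, Real.log_zero] at h1
      have h2 := mul_pos hσ0 hu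
      have h3 : 0 < β / 2 * LL T := by positivity
      linarith
  rw [hV]
  constructor
  · rw [hmomI, ← integral_const_mul]
    refine setIntegral_mono hEi (hwi.const_mul _) fun u => ?_
    by_cases hu : u ∈ E
    · rw [Set.indicator_of_mem hu, Pi.one_apply, Real.rpow_def_of_pos (hZpos u hu), ← Real.exp_add]
      refine Real.one_le_exp ?_
      rw [hN u]
      have h2 : 0 < σ * N x T β u * β := mul_pos (mul_pos hσ0 hu) hβ
      nlinarith
    · rw [Set.indicator_of_notMem hu]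
      have := Real.rpow_nonneg (Z_nonneg x T u) β
      positivity
  · have hav : ∀ y : ℝ, mom x T β * avg x T β ((Set.Iic y).indicator 1) =
        ∫ u in Set.Ioc (0:ℝ) 1, (Set.Iic y).indicator 1 (N x T β u) * Z x T u ^ β := by
      intro y
      unfold avg
      rw [mul_div_cancel₀ _ hm.ne', intervalIntegral.integral_of_le zero_le_one]
    have hint : ∀ y : ℝ, IntegrableOn (fun u => (Set.Iic y).indicator 1 (N x T β u) * Z x T u ^ β) (Set.Ioc 0 1) :=
      fun y => ind_int hw (N_meas x T β) measurableSet_Iic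
    have key : mom x T β * avg x T β ((Set.Iic δ).indicator 1) - mom x T β * avg x T β ((Set.Iic 0).indicator 1) ≤
        Real.exp (β ^ 2 / 2 * LL T + β * δ * σ) * ∫ u in Set.Ioc (0:ℝ) 1, E.indicator 1 u := by
      rw [hav, hav, ← integral_sub (hint δ) (hint 0), ← integral_const_mul]
      refine setIntegral_mono ((hint δ).sub (hint 0)) (hEi.const_mul _) fun u => ?_
      show (Set.Iic δ).indicator 1 (N x T β u) * Z x T u ^ β - (Set.Iic 0).indicator 1 (N x T β u) * Z x T u ^ β ≤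
        Real.exp (β ^ 2 / 2 * LL T + β * δ * σ) * E.indicator 1 u
      have hzn := Real.rpow_nonneg (Z_nonneg x T u) β
      rcases le_or_gt (N x T β u) 0 with h1 | h1
      · rw [Set.indicator_of_mem (show N x T β u ∈ Set.Iic δ from h1.trans hδ.le),
          Set.indicator_of_mem (show N x T β u ∈ Set.Iic 0 from h1), sub_self]
        have : 0 ≤ E.indicator (1 : ℝ → ℝ) u := Set.indicator_nonneg (fun _ _ => zero_le_one) u
        positivity
      · have hu : u ∈ E := h1
        rw [Set.indicator_of_notMem (show N x T β u ∉ Set.Iic 0 from not_le.2 h1), Set.indicator_of_mem hu,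
          zero_mul, sub_zero, Pi.one_apply, mul_one]
        rcases le_or_gt (N x T β u) δ with h2 | h2
        · rw [Set.indicator_of_mem (show N x T β u ∈ Set.Iic δ from h2), Pi.one_apply, one_mul,
            Real.rpow_def_of_pos (hZpos u h1)]
          refine Real.exp_le_exp.2 ?_
          rw [hN u]
          have h3 : σ * N x T β u * β ≤ σ * δ * β :=
            mul_le_mul_of_nonneg_right (mul_le_mul_of_nonneg_left h2 hσ0.le) hβ.le
          nlinarith
        · rw [Set.indicator_of_notMem (show N x T β u ∉ Set.Iic δ from not_le.2 h2), zero_mul]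
          positivity
    have h5 := mul_le_mul_of_nonneg_left key (Real.exp_pos (-(β ^ 2 / 2 * LL T) - β * δ * σ)).le
    have e5 : Real.exp (-(β ^ 2 / 2 * LL T) - β * δ * σ) * (Real.exp (β ^ 2 / 2 * LL T + β * δ * σ) *
        ∫ u in Set.Ioc (0:ℝ) 1, E.indicator 1 u) = ∫ u in Set.Ioc (0:ℝ) 1, E.indicator 1 u := by
      rw [← mul_assoc, ← Real.exp_add]
      have : -(β ^ 2 / 2 * LL T) - β * δ * σ + (β ^ 2 / 2 * LL T + β * δ * σ) = 0 := by ring
      rw [this, Real.exp_zero, one_mul]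
    rw [e5] at h5
    refine le_trans (le_of_eq ?_) h5
    ring

lemma gauss_pos {δ : ℝ} (hδ : 0 < δ) :
    0 < (gaussianReal 0 1).real (Set.Iic δ) - (gaussianReal 0 1).real (Set.Iic 0) := by
  have h1 : (gaussianReal 0 1).real (Set.Iic δ) =
      (gaussianReal 0 1).real (Set.Iic 0) + (gaussianReal 0 1).real (Set.Ioc 0 δ) := by
    rw [← measureReal_union (Set.Iic_disjoint_Ioc le_rfl) measurableSet_Ioc, Set.Iic_union_Ioc_eq_Iic hδ.le]
  rw [h1, add_sub_cancel_left, measureReal_def]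
  refine ENNReal.toReal_pos ?_ (measure_ne_top _ _)
  have h2 : gaussianReal 0 1 (Set.Ioc 0 δ) = ∫⁻ y in Set.Ioc 0 δ, gaussianPDF 0 1 y :=
    gaussianReal_apply 0 one_ne_zero _
  rw [h2]
  refine (setLIntegral_pos_iff (measurable_gaussianPDF 0 1)).2 ?_ |>.ne'
  have h3 : Function.support (gaussianPDF 0 1) = Set.univ := by
    ext y
    simp only [Function.mem_support, Set.mem_univ, iff_true]
    exact (gaussianPDF_pos 0 one_ne_zero y).ne'
  rw [h3, Set.univ_inter, Real.volume_Ioc]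
  simp [hδ]

lemma part4 (x : ℝ) {κ : ℝ → ℝ} (hκ : Tendsto κ atTop (𝓝 1)) :
    Tendsto (fun T => (Real.log (volume {u : ℝ | 0 < u ∧ u ≤ 1 ∧ κ T * LL T < Real.log (Z x T u)}).toReal +
      κ T ^ 2 * LL T) / Real.sqrt (LL T)) atTop (𝓝 0) := by
  have hβ : Tendsto (fun T => 2 * κ T) atTop (𝓝 2) := by
    have := hκ.const_mul 2
    rwa [mul_one] at this
  have hsq : Tendsto (fun T => Real.sqrt (LL T)) atTop atTop := Real.tendsto_sqrt_atTop.comp LL_top
  have hm0 : Tendsto (fun T => (Real.log (mom x T (2 * κ T)) - (2 * κ T) ^ 2 / 4 * LL T) / Real.sqrt (LL T))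
      atTop (𝓝 0) := (log_mom x hβ).div_atTop hsq
  rw [Metric.tendsto_nhds]
  intro ε hε
  -- choose δ
  obtain ⟨δ, hδ, hδε⟩ : ∃ δ : ℝ, 0 < δ ∧ 3 * δ < ε / 2 := ⟨ε / 12, by positivity, by linarith⟩
  set p := (gaussianReal 0 1).real (Set.Iic δ) - (gaussianReal 0 1).real (Set.Iic 0) with hp
  have hp0 : 0 < p := gauss_pos hδ
  have hav : Tendsto (fun T => avg x T (2 * κ T) ((Set.Iic δ).indicator 1) -
      avg x T (2 * κ T) ((Set.Iic 0).indicator 1)) atTop (𝓝 p) := (part2 x hβ δ).sub (part2 x hβ 0)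
  have hlp : Tendsto (fun T => Real.log (p / 2) / Real.sqrt (LL T)) atTop (𝓝 0) :=
    tendsto_const_nhds.div_atTop hsq
  filter_upwards [good x hβ, LL_top.eventually_gt_atTop 0, hav.eventually (lt_mem_nhds (show p / 2 < p by linarith)),
    (Metric.tendsto_nhds.1 hm0) (ε / 4) (by positivity), (Metric.tendsto_nhds.1 hlp) (ε / 4) (by positivity),
    hβ.eventually (gt_mem_nhds (show (2:ℝ) < 3 by norm_num))] with T h hL h3 h4 h5 h6
  obtain ⟨b1, b2⟩ := large_bounds h.1 hL h.2 hδ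
  have e0 : 2 * κ T / 2 = κ T := by ring
  rw [e0] at b1 b2
  set V := (volume {u : ℝ | 0 < u ∧ u ≤ 1 ∧ κ T * LL T < Real.log (Z x T u)}).toReal with hV
  have hs0 : 0 < Real.sqrt (LL T) := Real.sqrt_pos.2 hL
  have hσs : Real.sqrt (LL T / 2) ≤ Real.sqrt (LL T) := Real.sqrt_le_sqrt (by linarith)
  have hlow0 : 0 < Real.exp (-((2 * κ T) ^ 2 / 2 * LL T) - 2 * κ T * δ * Real.sqrt (LL T / 2)) * mom x T (2 * κ T) *
      (p / 2) := mul_pos (mul_pos (Real.exp_pos _) h.2) (by linarith)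
  have hlow : Real.exp (-((2 * κ T) ^ 2 / 2 * LL T) - 2 * κ T * δ * Real.sqrt (LL T / 2)) * mom x T (2 * κ T) *
      (p / 2) ≤ V :=
    (mul_le_mul_of_nonneg_left h3.le (mul_pos (Real.exp_pos _) h.2).le).trans b2
  have hV0 : 0 < V := hlow0.trans_le hlow
  have l1 := Real.log_le_log hV0 b1
  rw [Real.log_mul (Real.exp_pos _).ne' h.2.ne', Real.log_exp] at l1
  have l2 := Real.log_le_log hlow0 hlow
  rw [Real.log_mul (mul_pos (Real.exp_pos _) h.2).ne' (by linarith), Real.log_mul (Real.exp_pos _).ne' h.2.ne',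
    Real.log_exp] at l2
  rw [Real.dist_eq, sub_zero] at h4 h5 ⊢
  have g1 := abs_lt.1 h4
  have g2 := abs_lt.1 h5
  rw [lt_div_iff₀ hs0, div_lt_iff₀ hs0] at g1 g2
  rw [abs_lt, lt_div_iff₀ hs0, div_lt_iff₀ hs0]
  have hkδ : 2 * κ T * δ * Real.sqrt (LL T / 2) ≤ 3 * δ * Real.sqrt (LL T) := by
    have h7 : 2 * κ T * δ ≤ 3 * δ := mul_le_mul_of_nonneg_right h6.le hδ.le
    exact mul_le_mul h7 hσs (Real.sqrt_nonneg _) (by positivity)
  have hεs : 3 * δ * Real.sqrt (LL T) ≤ ε / 2 * Real.sqrt (LL T) := mul_le_mul_of_nonneg_right hδε.le hs0.le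
  have hes : 0 < ε * Real.sqrt (LL T) := by positivity
  constructor
  · nlinarith [g1.1, g2.1]
  · nlinarith [g1.2]

/-- **The measures `|ζ|^β(T) dt` with `β(T) → 2` are asymptotically Gaussian.** -/
theorem result (x : ℝ) :
    (∀ β : ℝ → ℝ, Tendsto β atTop (𝓝 2) →
      (∀ f : ℝ → ℝ, Continuous f → (∃ C A : ℝ, ∀ y, |f y| ≤ C * Real.exp (A * |y|)) →
        Tendsto (fun T => avg x T (β T) f) atTop (𝓝 (∫ y, f y ∂gaussianReal 0 1))) ∧
      (∀ y : ℝ, Tendsto (fun T => avg x T (β T) ((Set.Iic y).indicator 1)) atTop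
        (𝓝 ((gaussianReal 0 1).real (Set.Iic y)))) ∧
      (∀ k : ℕ, Tendsto (fun T => (∫ u in (0:ℝ)..1, Z x T u ^ β T * Real.log (Z x T u) ^ k) /
        (Real.exp (β T ^ 2 / 4 * LL T) * LL T ^ k)) atTop (𝓝 1))) ∧
    (∀ κ : ℝ → ℝ, Tendsto κ atTop (𝓝 1) →
      Tendsto (fun T => (Real.log (volume {u : ℝ | 0 < u ∧ u ≤ 1 ∧ κ T * LL T < Real.log (Z x T u)}).toReal +
        κ T ^ 2 * LL T) / Real.sqrt (LL T)) atTop (𝓝 0)) :=
  ⟨fun _ hβ => ⟨fun _ hf hb => part1 x hβ hf hb, part2 x hβ, part3 x hβ⟩, fun _ hκ => part4 x hκ⟩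

end

end Pool.Agent.Results.MP_f9aece_nt.WeightedGaussian
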